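import Pool.Agent.P8H18.RR.Fin2
import Pool.Agent.P8H1.AR.Ten
import Pool.Agent.P8H1.AR.Main
import Pool.Agent.P8H96.AR.Var
import Pool.Agent.P8H88.AR.Pnte
import Pool.Agent.P8H94.AR.Apx
import Pool.Agent.P8H45.RR.Maj
import Pool.Agent.P8H73.RR.Reg
import Pool.Agent.P8H90.RR.Psi
import Pool.Agent.P8H90.RR.Pxc

/-!
# MP_540de1_nt (infinitely many palindromic primes): almost all affine mirror rules

Let `n` have exactly `2 L + 1` digits.  Modulo `10 ^ L` the number `n` is given by its last `L` digits; let `up L n` be the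
number formed by its first `L` digits in reversed order.  Then `n` is a palindrome iff `up L n = n` in the ring
`Z / 10 ^ L`.  An affine mirror rule is a pair `(u, v)` of a unit and an element of this ring; the number `n` follows it if
`up L n = u n + v`.  Palindromes are the numbers that follow `(1, 0)`.

There is `c > 0` such that for all large `L`, all `k ≤ c sqrt L` and ALL pairs `(u₀, v₀)` modulo `10 ^ k`, for
example `(1, 0)` (then the first `k` and the last `k` digits of the numbers mirror each other exactly): all but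
`10 ^ (2 (L - k)) exp(-c sqrt L)` of the pairs `(u, v)` above `(u₀, v₀)` are good: the sum of `log p` over the primes with
`2 L + 1` digits that follow `(u, v)` is `rho 10 ^ (L + 1)` up to `10 ^ L exp(-c sqrt L)`, where `rho = 3/4` if `v` is a
unit and `rho = 1` otherwise.  The number of these primes is asymptotic to `5 rho 10 ^ L / (L log 10)`.

Project AR: helpers 18, 1, 45, 73, 88, 90, 94, 96.
-/

set_option autoImplicit false

namespace Pool.Agent.Results.MP_540de1_nt.AlmostAllAffineRules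

open Finset

/-- the digit of `n` at place `i` (place `0` is the last digit) -/
def digit (n i : ℕ) : ℕ := n / 10 ^ i % 10

/-- the number formed by the first `L` digits of `n` (a number with `2 L + 1` digits) in reversed order: the digit
at place `2 L - i` becomes the digit at place `i` -/
def up (L n : ℕ) : ℕ := ∑ i ∈ range L, digit n (2 * L - i) * 10 ^ i

/-- the primes with exactly `2 L + 1` digits that follow the affine rule `(u, v)` -/
noncomputable def follow (L : ℕ) (u v : ZMod (10 ^ L)) : Finset ℕ :=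
  (Ico (10 ^ (2 * L)) (10 ^ (2 * L + 1))).filter
    (fun p => p.Prime ∧ ((up L p : ℕ) : ZMod (10 ^ L)) = u * p + v)

/-- the proportion of the last digits `1, 3, 7, 9` for which the first digit is not zero -/
noncomputable def rho (L : ℕ) (v : ZMod (10 ^ L)) : ℝ := by
  classical exact if IsUnit v then 3 / 4 else 1

/-- the rule `(u, v)` has the expected number of primes -/
def Good (c : ℝ) (L : ℕ) (u v : ZMod (10 ^ L)) : Prop :=
  |∑ p ∈ follow L u v, Real.log p - rho L v * 10 ^ (L + 1)| ≤ 10 ^ L * Real.exp (-(c * √(L : ℝ)))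

/-- the class modulo `10 ^ k` of a class modulo `10 ^ L`, for `k ≤ L` -/
def red {k L : ℕ} (h : k ≤ L) : ZMod (10 ^ L) →+* ZMod (10 ^ k) :=
  ZMod.castHom (pow_dvd_pow 10 h) (ZMod (10 ^ k))

/-- the number of the pairs of a unit `u` and an element `v` modulo `10 ^ L` above `(u₀, v₀)` that are not good -/
noncomputable def bad (c : ℝ) {k L : ℕ} (h : k ≤ L) (u₀ v₀ : ZMod (10 ^ k)) : ℕ :=
  {w : (ZMod (10 ^ L))ˣ × ZMod (10 ^ L) |
    red h (w.1 : ZMod (10 ^ L)) = u₀ ∧ red h w.2 = v₀ ∧ ¬ Good c L (w.1 : ZMod (10 ^ L)) w.2}.ncard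

lemma follow_eq (L : ℕ) (u v : ZMod (10 ^ L)) : follow L u v = Pool.Agent.P8H18.AR.PF L u v := by
  unfold follow Pool.Agent.P8H18.AR.PF Pool.Agent.P8H18.AR.PD
  rw [filter_filter]
  rfl

lemma rho_eq (L : ℕ) (v : ZMod (10 ^ L)) : rho L v = Pool.Agent.P8H18.AR.rho L v := rfl

lemma good_iff (c : ℝ) (L : ℕ) (u v : ZMod (10 ^ L)) :
    Good c L u v ↔ Pool.Agent.P8H18.AR.Good (1 / 2) c L u v := by
  unfold Good Pool.Agent.P8H18.AR.Good
  rw [follow_eq, rho_eq, Real.sqrt_eq_rpow]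

/-- palindromes are the rule `(1, 0)` -/
theorem palin (L p : ℕ) : p ∈ follow L 1 0 ↔
    10 ^ (2 * L) ≤ p ∧ p < 10 ^ (2 * L + 1) ∧ p.Prime ∧ ∀ i ≤ 2 * L, digit p (2 * L - i) = digit p i := by
  have hup : ((up L p : ℕ) : ZMod (10 ^ L)) = 1 * p + 0 ↔ up L p = p % 10 ^ L := by
    rw [one_mul, add_zero, ZMod.natCast_eq_natCast_iff]
    unfold Nat.ModEq
    have h : up L p % 10 ^ L = up L p := Nat.mod_eq_of_lt (Pool.Agent.P8H1.AR.up_lt L p)
    rw [h]
  unfold follow
  rw [mem_filter, mem_Ico, hup]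
  constructor
  · rintro ⟨⟨h1, h2⟩, h3, h4⟩
    refine ⟨h1, h2, h3, fun i hi => ?_⟩
    have key : ∀ j : ℕ, j < L → digit p (2 * L - j) = digit p j := by
      intro j hj
      have e1 := Pool.Agent.P8H1.AR.dig_up L p j hj
      have e2 := Pool.Agent.P8H1.AR.dig_mod p L j hj
      have e3 : Pool.Agent.P8H18.AR.up L p = p % 10 ^ L := h4
      rw [e3, e2] at e1
      exact e1.symm
    rcases lt_trichotomy i L with h | h | h
    · exact key i h
    · rw [h, show 2 * L - L = L by omega]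
    · have := key (2 * L - i) (by omega)
      rw [show 2 * L - (2 * L - i) = i by omega] at this
      exact this.symm
  · rintro ⟨h1, h2, h3, h4⟩
    refine ⟨⟨h1, h2⟩, h3, ?_⟩
    refine Pool.Agent.P8H1.AR.dig_inj L _ _ (Pool.Agent.P8H1.AR.up_lt L p)
      (Nat.mod_lt _ (by positivity)) (fun i hi => ?_)
    have e1 := Pool.Agent.P8H1.AR.dig_up L p i hi
    have e2 := Pool.Agent.P8H1.AR.dig_mod p L i hi
    rw [e2]
    exact e1.trans (h4 i (by omega))

theorem result :
    (∃ c : ℝ, 0 < c ∧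
      (∃ L₀ : ℕ, ∀ L : ℕ, L₀ ≤ L → ∀ k : ℕ, ∀ hk : k ≤ L, (k : ℝ) ≤ c * √(L : ℝ) →
        ∀ u₀ v₀ : ZMod (10 ^ k),
          (bad c hk u₀ v₀ : ℝ) ≤ (10 ^ (L - k)) ^ 2 * Real.exp (-(c * √(L : ℝ)))) ∧
      (∀ ε : ℝ, 0 < ε → ∃ L₀ : ℕ, ∀ L : ℕ, L₀ ≤ L → ∀ u v : ZMod (10 ^ L), Good c L u v →
        |((follow L u v).card : ℝ) / (rho L v * (5 * 10 ^ L / (L * Real.log 10))) - 1| ≤ ε)) ∧
    (∀ L p : ℕ, p ∈ follow L 1 0 ↔
      10 ^ (2 * L) ≤ p ∧ p < 10 ^ (2 * L + 1) ∧ p.Prime ∧ ∀ i ≤ 2 * L, digit p (2 * L - i) = digit p i) := by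
  have hPSI := Pool.Agent.P8H90.RR.psi Pool.Agent.P8H73.RR.reg Pool.Agent.P8H90.RR.pxc
  have hAPX := Pool.Agent.P8H94.AR.apx (1 / 2) (by norm_num) le_rfl hPSI Pool.Agent.P8H88.AR.pnte
  have hMAIN := Pool.Agent.P8H1.AR.mainA (1 / 2) (by norm_num) hAPX
  obtain ⟨c, hc, L₀, h⟩ := Pool.Agent.P8H18.AR.fin2 (kap := 1 / 2) (by norm_num) le_rfl hMAIN
    Pool.Agent.P8H1.AR.ten Pool.Agent.P8H96.AR.var
  refine ⟨⟨c, hc, ⟨L₀, fun L hL k hk hkc u₀ v₀ => ?_⟩, fun ε hε => ?_⟩, palin⟩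
  · have : NeZero (10 ^ L) := ⟨by positivity⟩
    rw [Real.sqrt_eq_rpow] at hkc ⊢
    refine le_trans (le_of_eq ?_) (h L hL k hkc hk u₀ v₀)
    unfold bad
    rw [Nat.cast_inj, ← Set.ncard_coe_finset]
    congr 1
    ext w
    simp only [Set.mem_setOf_eq, coe_filter, mem_univ, true_and, good_iff]
    rfl
  · obtain ⟨L₁, h2⟩ := Pool.Agent.P8H18.AR.asym2 (kap := 1 / 2) (by norm_num) hc ε hε
    refine ⟨L₁, fun L hL u v hg => ?_⟩
    rw [follow_eq, rho_eq]
    exact h2 L hL u v ((good_iff c L u v).1 hg)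

end Pool.Agent.Results.MP_540de1_nt.AlmostAllAffineRules
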