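import Pool.Agent.P8H18.RR.Fin5
import Pool.Agent.P8H11.DS.Exp2
import Pool.Agent.P8H28.DS.Mom
import Pool.Agent.P8H29.RR.Dig
import Pool.Agent.P8H37.RR.BijGap
import Pool.Agent.P8H45.DS.Gap2
import Pool.Agent.P8H45.RR.Maj
import Pool.Agent.P8H54.DS.Th1
import Pool.Agent.P8H57.DS.Ex1
import Pool.Agent.P8H61.DS.Pnt
import Pool.Agent.P8H65.DS.Cop
import Pool.Agent.P8H65.DS.Zero
import Pool.Agent.P8H68.DS.Conn
import Pool.Agent.P8H73.RR.Reg
import Pool.Agent.P8H88.AR.Pnte
import Pool.Agent.P8H90.RR.Psi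
import Pool.Agent.P8H90.RR.Pxc
import Pool.Agent.P8H94.AR.Apx
import Pool.Agent.P8H94.DS.Wal2
import Pool.Agent.P8H96.DS.Ex2

/-!
# MP_540de1_nt (infinitely many palindromic primes): almost all local conditions on the mirrored digits

A palindrome with `2 L + 1` digits is a number such that for all `1 <= i < L` the pair (digit at place `i`, digit at place
`2 L - i`) is in the diagonal, and whose first and last digits agree.  Here the diagonal is replaced by sets
`R_1, ..., R_(L-1)` of pairs of digits, taken from a family `F`.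

`F` can be any family of sets with `s` elements that is regular (every pair of digits is in the same number of members) and
connected, for example the graphs of all permutations of the digits (`s = 10`, the size of the diagonal), the graphs of the
members of any 2-transitive set of permutations, or all sets with `s >= 2` elements (for `s = 2` the numbers allowed by
the conditions are about `N^0.15` numbers up to `N`).

For all but at most `|F|^(L-1) exp(-c sqrt L / log L)` of the sequences in `F^(L-1)` and for all last digits `e = 1, 3, 7, 9` and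
first digits `f = 1, ..., 9` the sum of `log p` over the primes with `2 L + 1` digits allowed by the conditions is
`25 s^(L-1)`, up to `s^(L-1) exp(-c sqrt L / log L)`.

Project DS: helpers 18, 11, 28, 29, 37, 45, 54, 57, 61, 65, 68, 73, 88, 90, 94, 96.
-/

set_option autoImplicit false

namespace Pool.Agent.Results.MP_540de1_nt.AlmostAllLocalRules

open Finset

/-- the pairs of digits -/
abbrev Pairs : Type := Fin 10 × Fin 10

/-- the digit of `n` at place `i` (place `0` is the last digit) -/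
def digit (n i : ℕ) : Fin 10 := ⟨n / 10 ^ i % 10, Nat.mod_lt _ (by norm_num)⟩

/-- `F` is a family of sets with `s` elements of pairs of digits, regular and connected -/
structure Family (s : ℕ) (F : Finset (Finset Pairs)) : Prop where
  /-- it is not empty -/
  nonempty : F.Nonempty
  /-- all members have `s` elements -/
  uniform : ∀ R ∈ F, R.card = s
  /-- every pair of digits is in the same number of members -/
  regular : ∀ w w' : Pairs, (F.filter (fun R => w ∈ R)).card = (F.filter (fun R => w' ∈ R)).card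
  /-- no set of pairs, except the empty one and the set of all pairs, contains or misses each member -/
  connected : ∀ A : Finset Pairs, (∀ R ∈ F, R ⊆ A ∨ Disjoint R A) → A = ∅ ∨ A = univ

/-- Local conditions for numbers with `2 L + 1` digits: the entry `i` (for `i < L - 1`) is the set of the allowed
pairs (digit at place `i + 1`, digit at place `2 L - (i + 1)`). -/
abbrev Conditions (L : ℕ) : Type := Fin (L - 1) → Finset Pairs

/-- the primes below `10 ^ (2 L + 1)` with last digit `e`, with the digit `f` at place `2 L` and with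
`(digit i, digit (2 L - i))` in the set `R_i` for all `1 ≤ i < L` -/
def follow (L : ℕ) (R : Conditions L) (e f : Fin 10) : Finset ℕ :=
  (range (10 ^ (2 * L + 1))).filter (fun p => p.Prime ∧ digit p 0 = e ∧ digit p (2 * L) = f ∧
    ∀ i : Fin (L - 1), (digit p (i + 1), digit p (2 * L - (i + 1))) ∈ R i)

/-- the error term -/
noncomputable def err (c : ℝ) (L : ℕ) : ℝ := Real.exp (-(c * (√(L : ℝ) / Real.log L)))

/-- the conditions have the expected number of primes, counted with the weights `log p` -/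
def Good (c : ℝ) (s L : ℕ) (R : Conditions L) : Prop :=
  ∀ e f : Fin 10, (e : ℕ) ∈ ({1, 3, 7, 9} : Finset ℕ) → (f : ℕ) ≠ 0 →
    |∑ p ∈ follow L R e f, Real.log p - 25 * (s : ℝ) ^ (L - 1)| ≤ (s : ℝ) ^ (L - 1) * err c L

/-- the graph of a permutation of the digits -/
def graph (σ : Equiv.Perm (Fin 10)) : Finset Pairs := univ.image (fun x : Fin 10 => (x, σ x))

/-- a set of permutations of the ten digits is 2-transitive: for `x ≠ x'` and `y ≠ y'` exactly one ninetieth
of its elements send `x` to `y` and `x'` to `y'` -/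
def TwoTransitive (Sg : Finset (Equiv.Perm (Fin 10))) : Prop :=
  ∀ x x' y y' : Fin 10, x ≠ x' → y ≠ y' →
    90 * (Sg.filter (fun s => s x = y ∧ s x' = y')).card = Sg.card

/-- `n` is a palindrome with `2 L + 1` digits (for `n < 10 ^ (2 L + 1)`) -/
def Palindrome (L n : ℕ) : Prop := digit n (2 * L) ≠ 0 ∧ ∀ i ≤ 2 * L, digit n (2 * L - i) = digit n i

lemma follow_eq (L : ℕ) (R : Conditions L) (e f : Fin 10) : follow L R e f = Pool.Agent.P8H18.DS.PQ L R e f := by
  ext p
  unfold follow Pool.Agent.P8H18.DS.PQ Pool.Agent.P8H18.RR.PP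
  simp only [mem_filter, Fin.ext_iff]
  constructor
  · rintro ⟨h1, h2, h3, h4, h5⟩
    exact ⟨⟨h1, h2, h3, h4⟩, h5⟩
  · rintro ⟨⟨h1, h2, h3, h4⟩, h5⟩
    exact ⟨h1, h2, h3, h4, h5⟩

lemma fin10 {e : ℕ} (he : e ∈ ({1, 3, 7, 9} : Finset ℕ)) : e < 10 := by
  simp only [mem_insert, mem_singleton] at he
  omega

lemma good_iff (c : ℝ) (s L : ℕ) (R : Conditions L) : Good c s L R ↔ Pool.Agent.P8H18.DS.Good c s L R := by
  unfold Good Pool.Agent.P8H18.DS.Good err
  constructor
  · intro h e f he hf1 hf9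
    have := h ⟨e, fin10 he⟩ ⟨f, by omega⟩ he (by simpa using (show f ≠ 0 by omega))
    rw [follow_eq] at this
    exact this
  · intro h e f he hf
    rw [follow_eq]
    exact h e f he (Nat.one_le_iff_ne_zero.2 hf) (by have := f.2; omega)

lemma family_iff (s : ℕ) (F : Finset (Finset Pairs)) : Family s F ↔ Pool.Agent.P8H18.DS.Con s F :=
  ⟨fun h => ⟨h.1, h.2, h.3, h.4⟩, fun h => ⟨h.1, h.2, h.3, h.4⟩⟩

theorem palin (L e p : ℕ) (he : e < 10) (he0 : e ≠ 0) :
    p ∈ follow L (fun _ => graph 1) ⟨e, he⟩ ⟨e, he⟩ ↔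
      p < 10 ^ (2 * L + 1) ∧ p.Prime ∧ (digit p 0 : ℕ) = e ∧ Palindrome L p := by
  have h := Pool.Agent.P8H18.DS.diag L e p he0
  rw [follow_eq]
  refine h.trans ?_
  unfold Palindrome
  simp only [Ne, Fin.ext_iff]
  rfl

open Classical in
theorem result :
    (∃ c : ℝ, 0 < c ∧
      (∃ L₀ : ℕ, ∀ L : ℕ, L₀ ≤ L → ∀ (s : ℕ) (F : Finset (Finset Pairs)), Family s F →
        (((Fintype.piFinset (fun _ : Fin (L - 1) => F)).filter (fun R => ¬ Good c s L R)).card : ℝ) ≤
          (F.card : ℝ) ^ (L - 1) * err c L) ∧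
      (∀ ε : ℝ, 0 < ε → ∃ L₀ : ℕ, ∀ L : ℕ, L₀ ≤ L → ∀ s : ℕ, 1 ≤ s → ∀ R : Conditions L, Good c s L R →
        ∀ e f : Fin 10, (e : ℕ) ∈ ({1, 3, 7, 9} : Finset ℕ) → (f : ℕ) ≠ 0 →
          |((follow L R e f).card : ℝ) / (25 * (s : ℝ) ^ (L - 1) / (2 * L * Real.log 10)) - 1| ≤ ε)) ∧
    (∀ Sg : Finset (Equiv.Perm (Fin 10)), Sg.Nonempty → TwoTransitive Sg → Family 10 (Sg.image graph)) ∧
    (∀ s : ℕ, 2 ≤ s → s ≤ 100 → Family s (univ.powersetCard s)) ∧
    (∀ (L e p : ℕ) (he : e < 10), e ≠ 0 →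
      (p ∈ follow L (fun _ => graph 1) ⟨e, he⟩ ⟨e, he⟩ ↔
        p < 10 ^ (2 * L + 1) ∧ p.Prime ∧ (digit p 0 : ℕ) = e ∧ Palindrome L p)) := by
  have hPSI := Pool.Agent.P8H90.RR.psi Pool.Agent.P8H73.RR.reg Pool.Agent.P8H90.RR.pxc
  have hAPX := Pool.Agent.P8H94.AR.apx (1 / 2) (by norm_num) le_rfl hPSI Pool.Agent.P8H88.AR.pnte
  have hEXP := Pool.Agent.P8H11.DS.exp2 (Pool.Agent.P8H45.RR.maj hPSI) Pool.Agent.P8H45.DS.gap2
    Pool.Agent.P8H65.DS.cop (Pool.Agent.P8H54.DS.th1 hAPX)
  have hWAL := Pool.Agent.P8H94.DS.wal2 hEXP Pool.Agent.P8H29.RR.digp Pool.Agent.P8H65.DS.zero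
  obtain ⟨c, hc, L₀, h⟩ := Pool.Agent.P8H18.DS.fin4 hWAL Pool.Agent.P8H28.DS.mom2 Pool.Agent.P8H37.RR.bij
    (Pool.Agent.P8H61.DS.pnt2 hAPX) Pool.Agent.P8H68.DS.con
  refine ⟨⟨c, hc, ⟨L₀, fun L hL s F hF => ?_⟩, fun ε hε => ?_⟩,
    fun Sg hSg hT => (family_iff _ _).2 (Pool.Agent.P8H57.DS.ex1 Sg hSg hT),
    fun s hs hs' => (family_iff _ _).2 (Pool.Agent.P8H96.DS.ex2 s hs hs'),
    fun L e p he he0 => palin L e p he he0⟩
  · have h1 := h L hL s F ((family_iff s F).1 hF)
    simp only [good_iff]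
    exact h1
  · obtain ⟨L₁, h2⟩ := Pool.Agent.P8H18.DS.asym3 hc ε hε
    refine ⟨L₁, fun L hL s hs R hR e f he hf => ?_⟩
    rw [follow_eq]
    exact h2 L hL s hs R ((good_iff c s L R).1 hR) e f he (Nat.one_le_iff_ne_zero.2 hf) (by have := f.2; omega)

end Pool.Agent.Results.MP_540de1_nt.AlmostAllLocalRules
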