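import Mathlib
import Pool.Agent.P8H18.PS.Asm
import Pool.Agent.P8H20.PS.Sec
import Pool.Agent.P8H20.PS.Cnt
import Pool.Agent.P8H89.PS.Dec
import Pool.Agent.P8H89.PS.Card
import Pool.Agent.P8H65.PS.Sng
import Pool.Agent.P8H65.PS.Main
import Pool.Agent.P8H65.PS.Law

/-!
# Palindromes and primes: the formula of Hardy and Littlewood for almost all shifts

Let `D` be a set of decimal digits whose differences are not all divisible by `3` and not all divisible by `7` (for
instance the set of all digits, or `{1, 3}`). For almost all vectors `(h_1, ..., h_s)` of integers up to `N = 10 ^ (2 L + 1)` the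
number of the palindromes `v` with exactly `2 L + 1` decimal digits, all of them in `D`, for which all the numbers
`v + h_1, ..., v + h_s` are prime is asymptotically equal to the number that the heuristic of Hardy and Littlewood predicts;
the question is about one single shift, `s = 1` and `h = 0`. There are only about `√N` palindromes up to `N`, and only
`2 ^ (L + 1)`, about `N ^ 0.15`, with all digits in `{1, 3}`. The number of the exceptional vectors is at most
`N ^ s / (log N) ^ A`, with `A` as large as we please.

Method: for functions `G` with `|G| ≤ K` the sums of `G n * (Λ - λ_z) (n + v)` over `n ≤ N` are small on average over the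
palindromes `v` (`Pool.Agent.N469.PT.mirror_one`, helper469, from the decay of the characteristic function of the palindromes,
starting files); here `λ_z` is the sieve model for the von Mangoldt function `Λ`. With `G n = (Λ - λ_z) (n + v')` and a
telescoping argument this gives the second moment over the vectors of shifts of the error that one makes by
replacing all `Λ` by `λ_z`. The main term is evaluated for every vector of shifts by a sieve, with the distribution of the
palindromes in the residue classes to moduli prime to `10`.

Authors: helper18 (proof on paper, statements, assembly), helper20 (second moment, counts), helper65 (the law of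
the palindromes, main term, singular series), helper89 (distribution in residue classes).
-/

set_option autoImplicit false

namespace Pool.Agent.Results.MP_540de1_nt.AlmostAllShifts

open Finset Filter

/-- The palindromes with exactly `2 L + 1` decimal digits, all in `D`. -/
def Pal (D : Finset ℕ) (L : ℕ) : Finset ℕ :=
  (range (10 ^ (2 * L + 1))).filter fun v => 10 ^ (2 * L) ≤ v ∧ (Nat.digits 10 v).reverse = Nat.digits 10 v ∧
    ∀ a ∈ Nat.digits 10 v, a ∈ D

/-- The admitted sets of digits: not all differences are divisible by `3`, and not all are divisible by `7`. -/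
structure DigitSet (D : Finset ℕ) : Prop where
  lt : ∀ a ∈ D, a < 10
  three : ∃ a ∈ D, ∃ b ∈ D, ¬ a ≡ b [MOD 3]
  seven : ∃ a ∈ D, ∃ b ∈ D, ¬ a ≡ b [MOD 7]

/-- The number of the residues `r < p` for which `p` divides some `r + h i`. -/
def nu {s : ℕ} (h : Fin s → ℕ) (p : ℕ) : ℕ := ((range p).filter fun r => ∃ i, p ∣ r + h i).card

/-- The local factor at the primes `2` and `5`: the proportion of the digits `a ≠ 0` of `D` (the last digit of a palindrome
is its first digit) for which all `a + h i` are prime to `10`, divided by `(2 / 5) ^ s`. -/
noncomputable def d10 {s : ℕ} (D : Finset ℕ) (h : Fin s → ℕ) : ℝ :=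
  (((D.erase 0).filter fun a => ∀ i, (a + h i).Coprime 10).card : ℝ) / (D.erase 0).card / (2 / 5) ^ s

/-- The partial product over the primes `p ≤ z` of the singular series: the local factor at `2` and `5` times the
usual local factors at the other primes. -/
noncomputable def sing {s : ℕ} (D : Finset ℕ) (h : Fin s → ℕ) (z : ℕ) : ℝ :=
  d10 D h * ∏ p ∈ (Icc 1 z).filter (fun p => p.Prime ∧ p ≠ 2 ∧ p ≠ 5),
    (1 - (nu h p : ℝ) / p) / (1 - 1 / (p : ℝ)) ^ s

/-- No local obstruction: for some digit `a ≠ 0` of `D` all `a + h i` are prime to `10`, and for every prime `p ≠ 2, 5` there is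
an `r` such that `p` divides none of the `r + h i`. -/
def Admissible {s : ℕ} (D : Finset ℕ) (h : Fin s → ℕ) : Prop :=
  (∃ a ∈ D, a ≠ 0 ∧ ∀ i, (a + h i).Coprime 10) ∧ ∀ p : ℕ, p.Prime → p ≠ 2 → p ≠ 5 → ∃ r : ℕ, ∀ i, ¬ p ∣ r + h i

/-- The number of the palindromes `v` for which all `v + h i` are prime. -/
def count {s : ℕ} (D : Finset ℕ) (L : ℕ) (h : Fin s → ℕ) : ℕ := ((Pal D L).filter fun v => ∀ i, (v + h i).Prime).card

/-- The number weighted with the von Mangoldt function. -/
noncomputable def weighted {s : ℕ} (D : Finset ℕ) (L : ℕ) (h : Fin s → ℕ) : ℝ :=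
  ∑ v ∈ Pal D L, ∏ i, ArithmeticFunction.vonMangoldt (v + h i)

/-- Let `D` be a set of decimal digits, not all differences of which are divisible by `3` and not all by `7`, and let `s ≥ 1`,
`A` and `ε > 0` be fixed. Let `L` be large and `N = 10 ^ (2 L + 1)`. For all vectors `(h_1, ..., h_s)` of integers in `[1, N]`
with at most `N ^ s / (log N) ^ A` exceptions: the singular series converges to some `S`; the number of the palindromes with
`2 L + 1` digits, all in `D`, weighted with `Λ (v + h_1) ⋯ Λ (v + h_s)`, is `S` times the number of the palindromes, with an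
error of at most the number of the palindromes divided by `(log N) ^ A`; and if the vector has no local obstruction
then `S > 0` and the number of the palindromes `v` for which all `v + h_i` are prime is `S / (log N) ^ s` times the number of
the palindromes, with a relative error of at most `ε`. -/
theorem result (D : Finset ℕ) (hD : DigitSet D) (s : ℕ) (hs : 1 ≤ s) (A : ℕ) (ε : ℝ) (hε : 0 < ε) :
    ∃ L₀ : ℕ, ∀ L : ℕ, L₀ ≤ L → ∀ N : ℕ, N = 10 ^ (2 * L + 1) →
      ∃ X ⊆ Fintype.piFinset (fun _ : Fin s => Icc 1 N), (X.card : ℝ) ≤ (N : ℝ) ^ s / Real.log N ^ A ∧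
        ∀ h ∈ Fintype.piFinset (fun _ : Fin s => Icc 1 N), h ∉ X →
          ∃ S : ℝ, Tendsto (sing D h) atTop (nhds S) ∧
            |weighted D L h - S * (Pal D L).card| ≤ (Pal D L).card / Real.log N ^ A ∧
            (Admissible D h → 0 < S ∧ |(count D L h : ℝ) - S * ((Pal D L).card / Real.log N ^ s)| ≤
              ε * (S * ((Pal D L).card / Real.log N ^ s))) :=
  Pool.Agent.P8H18.PS.asm Pool.Agent.P8H20.PS.sec Pool.Agent.P8H65.PS.law
    (Pool.Agent.P8H65.PS.main Pool.Agent.P8H89.PS.dec Pool.Agent.P8H89.PS.card)
    Pool.Agent.P8H65.PS.sng Pool.Agent.P8H20.PS.cnt Pool.Agent.P8H89.PS.card D ⟨hD.lt, hD.three, hD.seven⟩ s hs A ε hε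

end Pool.Agent.Results.MP_540de1_nt.AlmostAllShifts
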